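import Pool.Agent.U593.AE.ArcMain

/-!
# MP_7a9089_an: outer billiards with asymptotically elliptic first integrals

`γ` is the image of the closed curve `c` with velocity `c' ≠ 0` in the plane `ℂ = ℝ²`, and
`swept c c'` is the union of the tangent lines of `γ` (the closed exterior, if `γ` is convex).  The
outer billiard map exchanges the points `c t ± s c' t` of the tangent lines, so a function `f` is
invariant if and only if it has the same value at both.

(1) Let `f` be a continuous invariant function on the closed exterior whose far level curves are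
asymptotic to the ellipses `‖Λ (z - z₀)‖ = r`: points of one level far away have nearly the same
value of `‖Λ (z - z₀)‖` (`Asymptotic`).  No foliation, regularity or convexity of the level curves
is assumed.  Then `γ` is one of these ellipses, and `f` is constant on each of those around it.
(2) The asymptotic condition holds for every continuous `f = q + o(‖z‖)` with a positive definite
quadratic polynomial `q`.
(3) If `f` is real analytic on the whole plane, then it suffices that `f` is invariant near an
arbitrarily short arc of `γ`.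

Proof.  The asymptotic condition at the ends of a tangent line shows that it is orthogonal to the
radius (in the coordinate `Λ (z - z₀)`).  So `γ` is a circle, and `f` is invariant under the rotation
of each circle around it by an angle which depends on the radius and is an irrational multiple of
`π` for a dense set of radii.
-/

set_option autoImplicit false

open Filter Topology Complex Set

namespace Pool.Agent.Results.MP_7a9089_an.AsymptoticallyElliptic

open Pool.Agent.U593.AE

theorem result :
    (∀ (c c' : ℝ → ℂ) (f : ℂ → ℝ) (Λ : ℂ ≃L[ℝ] ℂ) (z₀ : ℂ), ClosedCurve c c' →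
      Asymptotic Λ z₀ f (swept c c') → ContinuousOn f (swept c c') →
      (∀ t s : ℝ, f (c t + s • c' t) = f (c t - s • c' t)) → Elliptic Λ z₀ f c c') ∧
    (∀ (f : ℂ → ℝ) (Λ : ℂ ≃L[ℝ] ℂ) (z₀ : ℂ), Continuous f →
      ((fun z => f z - ‖Λ (z - z₀)‖ ^ 2) =o[cocompact ℂ] fun z => ‖z‖) →
      ∀ E : Set ℂ, Asymptotic Λ z₀ f E) ∧
    (∀ (c c' : ℝ → ℂ) (f : ℂ → ℝ) (Λ : ℂ ≃L[ℝ] ℂ) (z₀ : ℂ) (a b : ℝ), a < b →
      (∀ t ∈ Ioo a b, HasDerivAt c (c' t) t) → (∀ t ∈ Ioo a b, c' t ≠ 0) →
      (∀ z, AnalyticAt ℝ f z) → Asymptotic Λ z₀ f univ →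
      (∀ t ∈ Ioo a b, ∀ᶠ s : ℝ in 𝓝 0, f (c t + s • c' t) = f (c t - s • c' t)) →
      ∃ ρ : ℝ, 0 < ρ ∧ (∀ t ∈ Ioo a b, ‖Λ (c t - z₀)‖ = ρ) ∧
        ∀ z w, ‖Λ (z - z₀)‖ = ‖Λ (w - z₀)‖ → f z = f w) := by
  refine ⟨fun _ _ _ Λ z₀ hc hA hcont hs => outer Λ z₀ hc hA hcont hs,
    fun _ Λ z₀ hf ho E => asymptotic_of_littleO Λ z₀ hf ho E,
    fun _ _ _ Λ z₀ _ _ hab hd hreg han hA hs => arc Λ z₀ hab hd hreg han hA fun t ht => ?_⟩
  refine ⟨0, ?_⟩
  filter_upwards [hs t ht] with s h
  rw [zero_mul, add_zero, div_one]
  exact h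

end Pool.Agent.Results.MP_7a9089_an.AsymptoticallyElliptic
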